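import Mathlib

set_option autoImplicit false

/-!
Counting solutions of `x < n + φ(n) < x + δ x`: for every fixed `δ` the number is at most `6 δ x`
once `x` is large.  The proof truncates `φ(n)/n` at the primes up to `y` and counts in residue
classes modulo `y!`.
-/

namespace Pool.Agent.Q40.PhiShift

open Finset Filter Topology

/-- the ratio `φ(n)/n` -/
noncomputable def rho (n : ℕ) : ℝ := (Nat.totient n : ℝ) / n

lemma rho_eq (n : ℕ) (hn : n ≠ 0) : rho n = ∏ p ∈ n.primeFactors, (1 - (p:ℝ)⁻¹) := by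
  have h := Nat.totient_eq_mul_prod_factors n
  have h2 : ((Nat.totient n : ℚ) : ℝ) = (((n : ℚ) * ∏ p ∈ n.primeFactors, (1 - (p:ℚ)⁻¹) : ℚ) : ℝ) := by
    rw [h]
  push_cast at h2
  unfold rho
  have hn' : (n : ℝ) ≠ 0 := by exact_mod_cast hn
  rw [h2]
  field_simp

lemma one_sub_prod_le (s : Finset ℕ) (f : ℕ → ℝ) (h0 : ∀ i ∈ s, 0 ≤ f i) (h1 : ∀ i ∈ s, f i ≤ 1) :
    1 - ∏ i ∈ s, (1 - f i) ≤ ∑ i ∈ s, f i := by
  classical
  induction s using Finset.induction_on with
  | empty => simp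
  | insert a s ha ih =>
    rw [Finset.prod_insert ha, Finset.sum_insert ha]
    have ih' := ih (fun i hi => h0 i (mem_insert_of_mem hi)) (fun i hi => h1 i (mem_insert_of_mem hi))
    have hP0 : 0 ≤ ∏ i ∈ s, (1 - f i) :=
      Finset.prod_nonneg fun i hi => by linarith [h1 i (mem_insert_of_mem hi)]
    have hP1 : ∏ i ∈ s, (1 - f i) ≤ 1 :=
      Finset.prod_le_one (fun i hi => by linarith [h1 i (mem_insert_of_mem hi)])
        (fun i hi => by linarith [h0 i (mem_insert_of_mem hi)])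
    have ha0 := h0 a (mem_insert_self a s)
    nlinarith

lemma primeFactors_gcd (n y : ℕ) (hn : n ≠ 0) :
    (Nat.gcd n y.factorial).primeFactors = n.primeFactors.filter (fun p => p ≤ y) := by
  ext p
  rw [Nat.mem_primeFactors, mem_filter, Nat.mem_primeFactors]
  constructor
  · rintro ⟨hp, hd, _⟩
    exact ⟨⟨hp, hd.trans (Nat.gcd_dvd_left _ _), hn⟩,
      (hp.dvd_factorial).1 (hd.trans (Nat.gcd_dvd_right _ _))⟩
  · rintro ⟨⟨hp, hd, _⟩, hy⟩
    exact ⟨hp, Nat.dvd_gcd hd ((hp.dvd_factorial).2 hy),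
      Nat.gcd_ne_zero_left hn⟩

lemma rho_gcd_sub (n y : ℕ) (hn : n ≠ 0) :
    rho n ≤ rho (Nat.gcd n y.factorial) ∧
    rho (Nat.gcd n y.factorial) - rho n ≤ ∑ p ∈ n.primeFactors.filter (fun p => ¬ p ≤ y), (p:ℝ)⁻¹ := by
  have hg : Nat.gcd n y.factorial ≠ 0 := Nat.gcd_ne_zero_left hn
  rw [rho_eq n hn, rho_eq _ hg, primeFactors_gcd n y hn,
    ← Finset.prod_filter_mul_prod_filter_not n.primeFactors (fun p => p ≤ y)]
  have hi0 : ∀ p ∈ n.primeFactors, (0:ℝ) ≤ (p:ℝ)⁻¹ := fun p _ => by positivity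
  have hi1 : ∀ p ∈ n.primeFactors, (p:ℝ)⁻¹ ≤ 1 := fun p hp => by
    have := (Nat.prime_of_mem_primeFactors hp).one_lt
    exact inv_le_one_of_one_le₀ (by exact_mod_cast this.le)
  set A := ∏ p ∈ n.primeFactors.filter (fun p => p ≤ y), (1 - (p:ℝ)⁻¹) with hA
  set B := ∏ p ∈ n.primeFactors.filter (fun p => ¬ p ≤ y), (1 - (p:ℝ)⁻¹) with hB
  have hA0 : 0 ≤ A := Finset.prod_nonneg fun p hp => by linarith [hi1 p (mem_filter.1 hp).1]
  have hA1 : A ≤ 1 := Finset.prod_le_one (fun p hp => by linarith [hi1 p (mem_filter.1 hp).1])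
    (fun p hp => by linarith [hi0 p (mem_filter.1 hp).1])
  have hB0 : 0 ≤ B := Finset.prod_nonneg fun p hp => by linarith [hi1 p (mem_filter.1 hp).1]
  have hB1 : B ≤ 1 := Finset.prod_le_one (fun p hp => by linarith [hi1 p (mem_filter.1 hp).1])
    (fun p hp => by linarith [hi0 p (mem_filter.1 hp).1])
  have hs := one_sub_prod_le (n.primeFactors.filter (fun p => ¬ p ≤ y)) (fun p => (p:ℝ)⁻¹)
    (fun p hp => hi0 p (mem_filter.1 hp).1) (fun p hp => hi1 p (mem_filter.1 hp).1)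
  constructor
  · nlinarith
  · have : A - A * B = A * (1 - B) := by ring
    rw [this]
    calc A * (1 - B) ≤ 1 * (1 - B) := mul_le_mul_of_nonneg_right hA1 (by linarith)
      _ = 1 - B := one_mul _
      _ ≤ _ := hs

lemma sum_tail (y N : ℕ) (hy : 1 ≤ y) :
    ∑ n ∈ Ioc 0 N, ∑ p ∈ n.primeFactors.filter (fun p => ¬ p ≤ y), (p:ℝ)⁻¹ ≤ (N:ℝ) / y := by
  have h1 : ∀ n ∈ Ioc 0 N, ∑ p ∈ n.primeFactors.filter (fun p => ¬ p ≤ y), (p:ℝ)⁻¹ ≤
      ∑ m ∈ Ioc y N, if m ∣ n then (m:ℝ)⁻¹ else 0 := by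
    intro n hn
    rw [mem_Ioc] at hn
    rw [← Finset.sum_filter]
    apply Finset.sum_le_sum_of_subset_of_nonneg
    · intro p hp
      rw [mem_filter, Nat.mem_primeFactors] at hp
      rw [mem_filter, mem_Ioc]
      exact ⟨⟨by omega, (Nat.le_of_dvd hn.1 hp.1.2.1).trans hn.2⟩, hp.1.2.1⟩
    · intros; positivity
  refine (Finset.sum_le_sum h1).trans ?_
  rw [Finset.sum_comm]
  have h2 : ∀ m ∈ Ioc y N, ∑ n ∈ Ioc 0 N, (if m ∣ n then (m:ℝ)⁻¹ else 0) ≤ N * ((m:ℝ)^2)⁻¹ := by
    intro m hm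
    rw [mem_Ioc] at hm
    have hm0 : (0:ℝ) < m := by
      have : 0 < m := by omega
      exact_mod_cast this
    rw [← Finset.sum_filter, Finset.sum_const, Nat.Ioc_filter_dvd_card_eq_div, nsmul_eq_mul]
    calc ((N / m : ℕ) : ℝ) * (m:ℝ)⁻¹ ≤ ((N:ℝ) / m) * (m:ℝ)⁻¹ :=
          mul_le_mul_of_nonneg_right Nat.cast_div_le (by positivity)
      _ = N * ((m:ℝ)^2)⁻¹ := by field_simp
  refine (Finset.sum_le_sum h2).trans ?_
  rw [← Finset.mul_sum]
  rcases Nat.lt_or_ge N y with h | h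
  · rw [Ioc_eq_empty (by omega)]
    simp
    positivity
  · have h3 := sum_Ioc_inv_sq_le_sub (α := ℝ) (k := y) (n := N) (by omega) h
    have h4 : (0:ℝ) ≤ (N:ℝ)⁻¹ := by positivity
    calc (N:ℝ) * ∑ i ∈ Ioc y N, ((i:ℝ)^2)⁻¹ ≤ N * (y:ℝ)⁻¹ :=
          mul_le_mul_of_nonneg_left (by linarith) (by positivity)
      _ = N / y := by rw [div_eq_mul_inv]

/-- exceptional integers: those for which the truncation at `y` is off by more than `δ` -/
lemma card_bad (y N : ℕ) (hy : 1 ≤ y) (δ : ℝ) (hδ : 0 < δ) :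
    (((Ioc 0 N).filter (fun n => δ < rho (Nat.gcd n y.factorial) - rho n)).card : ℝ) ≤ N / (δ * y) := by
  have hy0 : (0:ℝ) < y := by exact_mod_cast (by omega : 0 < y)
  rw [le_div_iff₀ (by positivity)]
  have h1 : (((Ioc 0 N).filter (fun n => δ < rho (Nat.gcd n y.factorial) - rho n)).card : ℝ) * δ ≤
      (N:ℝ) / y := by
    rw [← nsmul_eq_mul, ← Finset.sum_const]
    refine le_trans (Finset.sum_le_sum (g := fun n : ℕ =>
      ∑ p ∈ n.primeFactors.filter (fun p : ℕ => ¬ p ≤ y), ((p:ℕ):ℝ)⁻¹) ?_) (le_trans ?_ (sum_tail y N hy))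
    · intro n hn
      rw [mem_filter, mem_Ioc] at hn
      have := (rho_gcd_sub n y (by omega)).2
      linarith
    · apply Finset.sum_le_sum_of_subset_of_nonneg (filter_subset _ _)
      intros; positivity
  rw [le_div_iff₀ hy0] at h1
  linarith

/-- integers of one residue class in a short interval -/
lemma card_class (S : Finset ℕ) (M : ℕ) (hM : 0 < M) (L : ℝ) (hL0 : 0 ≤ L)
    (hL : ∀ m ∈ S, ∀ n ∈ S, (n:ℝ) - m < L) (hmod : ∀ m ∈ S, ∀ n ∈ S, n % M = m % M) :
    (S.card : ℝ) ≤ L / M + 1 := by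
  rcases S.eq_empty_or_nonempty with h | h
  · subst h
    simp
    positivity
  · set s := S.min' h with hs
    have hsS : s ∈ S := S.min'_mem h
    have hMr : (0:ℝ) < M := by exact_mod_cast hM
    have hinj : Set.InjOn (fun n => (n - s) / M) (S : Set ℕ) := by
      intro m hm n hn hmn
      have hm' : s ≤ m := S.min'_le m hm
      have hn' : s ≤ n := S.min'_le n hn
      have h1 : M ∣ m - s := (Nat.modEq_iff_dvd' hm').1 (hmod m hm s hsS)
      have h2 : M ∣ n - s := (Nat.modEq_iff_dvd' hn').1 (hmod n hn s hsS)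
      have h3 : m - s = n - s := by
        rw [← Nat.div_mul_cancel h1, ← Nat.div_mul_cancel h2]
        show (m - s) / M * M = (n - s) / M * M
        rw [show (m - s) / M = (n - s) / M from hmn]
      omega
    have hmaps : Set.MapsTo (fun n => (n - s) / M) (S : Set ℕ)
        (Finset.range (⌊L / M⌋₊ + 1) : Set ℕ) := by
      intro n hn
      have hn' : s ≤ n := S.min'_le n hn
      rw [Finset.coe_range, Set.mem_Iio, Nat.lt_succ_iff]
      apply Nat.le_floor
      have h1 := hL s hsS n hn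
      calc (((n - s) / M : ℕ) : ℝ) ≤ ((n - s : ℕ) : ℝ) / M := Nat.cast_div_le
        _ ≤ L / M := by
          apply div_le_div_of_nonneg_right _ hMr.le
          rw [Nat.cast_sub hn']
          linarith
    have hc := Finset.card_le_card_of_injOn _ hmaps hinj
    rw [Finset.card_range] at hc
    calc (S.card : ℝ) ≤ ((⌊L / M⌋₊ + 1 : ℕ) : ℝ) := by exact_mod_cast hc
      _ = (⌊L / M⌋₊ : ℝ) + 1 := by push_cast; ring
      _ ≤ L / M + 1 := by
        have := Nat.floor_le (show 0 ≤ L / M by positivity)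
        linarith

/-- the main counting bound -/
theorem count_le (δ : ℝ) (hδ : 0 < δ) (hδ1 : δ ≤ 1) : ∃ X0 : ℕ, ∀ x : ℕ, X0 ≤ x →
    (((Ioc 0 (2 * x)).filter (fun n : ℕ => (x:ℝ) < (n:ℝ) + (Nat.totient n : ℝ) ∧
      (n:ℝ) + (Nat.totient n : ℝ) < (x:ℝ) + δ * x)).card : ℝ) ≤ 6 * (δ * x) := by
  classical
  obtain ⟨y, hy⟩ := exists_nat_gt (1 / δ ^ 2)
  have hy0 : (0:ℝ) < y := lt_trans (by positivity) hy
  have hy1 : 1 ≤ y := by exact_mod_cast hy0
  set M := y.factorial with hMdef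
  have hM : 0 < M := Nat.factorial_pos y
  have hMr : (0:ℝ) < M := by exact_mod_cast hM
  obtain ⟨X0, hX0⟩ := exists_nat_gt ((M:ℝ) / δ)
  refine ⟨X0, fun x hx => ?_⟩
  have hxr : (M:ℝ) / δ < x := lt_of_lt_of_le hX0 (by exact_mod_cast hx)
  have hx0 : (0:ℝ) < x := lt_trans (by positivity) hxr
  rw [div_lt_iff₀ hδ] at hxr
  set E := (Ioc 0 (2 * x)).filter (fun n : ℕ => (x:ℝ) < (n:ℝ) + (Nat.totient n : ℝ) ∧
      (n:ℝ) + (Nat.totient n : ℝ) < (x:ℝ) + δ * x) with hE
  set Bd := (Ioc 0 (2 * x)).filter (fun n => δ < rho (Nat.gcd n y.factorial) - rho n) with hBd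
  -- bad part
  have hbad : (Bd.card : ℝ) ≤ 2 * (δ * x) := by
    refine (card_bad y (2 * x) hy1 δ hδ).trans ?_
    rw [div_le_iff₀ (by positivity)]
    have h1 : 1 < δ ^ 2 * y := by
      rw [div_lt_iff₀ (by positivity)] at hy
      linarith
    push_cast
    nlinarith
  -- good part
  set G := E.filter (fun n => n ∉ Bd) with hG
  have hgood : (G.card : ℝ) ≤ 3 * (δ * x) + M := by
    have hfib : G.card = ∑ a ∈ Finset.range M, (G.filter (fun n => n % M = a)).card := by
      apply Finset.card_eq_sum_card_fiberwise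
      intro n _
      simpa using Nat.mod_lt n hM
    have hcls : ∀ a ∈ Finset.range M, ((G.filter (fun n => n % M = a)).card : ℝ) ≤
        (3 * (δ * x)) / M + 1 := by
      intro a _
      apply card_class _ M hM _ (by positivity)
      · intro m hm n hn
        rw [mem_filter, hG, mem_filter, hE, mem_filter, mem_Ioc] at hm hn
        obtain ⟨⟨⟨⟨hm0, hm2x⟩, hml, hmu⟩, hmB⟩, hma⟩ := hm
        obtain ⟨⟨⟨⟨hn0, hn2x⟩, hnl, hnu⟩, hnB⟩, hna⟩ := hn
        have hgc : Nat.gcd m y.factorial = Nat.gcd n y.factorial := by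
          rw [Nat.gcd_comm m, Nat.gcd_comm n, Nat.gcd_rec y.factorial m, Nat.gcd_rec y.factorial n]
          rw [← hMdef, hma, hna]
        have hmg : rho (Nat.gcd m y.factorial) - rho m ≤ δ := by
          by_contra hcon
          exact hmB (mem_filter.2 ⟨mem_Ioc.2 ⟨hm0, hm2x⟩, lt_of_not_ge hcon⟩)
        have hng : rho (Nat.gcd n y.factorial) - rho n ≤ δ := by
          by_contra hcon
          exact hnB (mem_filter.2 ⟨mem_Ioc.2 ⟨hn0, hn2x⟩, lt_of_not_ge hcon⟩)
        have hmr := (rho_gcd_sub m y (by omega)).1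
        have hnr := (rho_gcd_sub n y (by omega)).1
        rw [hgc] at hmg hmr
        set c := rho (Nat.gcd n y.factorial) with hc
        have hm0' : (0:ℝ) < m := by exact_mod_cast hm0
        have hn0' : (0:ℝ) < n := by exact_mod_cast hn0
        have hn2' : (n:ℝ) ≤ 2 * x := by exact_mod_cast hn2x
        have em : (Nat.totient m : ℝ) = m * rho m := by
          unfold rho; field_simp
        have en : (Nat.totient n : ℝ) = n * rho n := by
          unfold rho; field_simp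
        rw [em] at hml hmu
        rw [en] at hnl hnu
        have hc0 : 0 ≤ c := by
          rw [hc]; unfold rho; positivity
        -- n (1+c) < x + 3 δ x, m (1+c) > x
        have h1 : (n:ℝ) * (1 + c) < x + 3 * (δ * x) := by nlinarith
        have h2 : (x:ℝ) < m * (1 + c) := by nlinarith
        have h3 : ((n:ℝ) - m) * (1 + c) < 3 * (δ * x) := by nlinarith
        rcases le_or_gt ((n:ℝ) - m) 0 with h4 | h4
        · have : 0 < 3 * (δ * x) := by positivity
          linarith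
        · nlinarith
      · intro m hm n hn
        rw [mem_filter] at hm hn
        rw [hm.2, hn.2]
    rw [hfib]
    push_cast
    refine (Finset.sum_le_sum hcls).trans ?_
    rw [Finset.sum_const, Finset.card_range, nsmul_eq_mul]
    have : (M:ℝ) * (3 * (δ * x) / M + 1) = 3 * (δ * x) + M := by field_simp
    rw [this]
  have hsub : E ⊆ Bd ∪ G := by
    intro n hn
    rw [mem_union]
    by_cases h : n ∈ Bd
    · exact Or.inl h
    · exact Or.inr (mem_filter.2 ⟨hn, h⟩)
  have hcard : (E.card : ℝ) ≤ Bd.card + G.card := by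
    exact_mod_cast (Finset.card_le_card hsub).trans (Finset.card_union_le _ _)
  nlinarith

end Pool.Agent.Q40.PhiShift
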