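import Mathlib
import Pool.Agent.Q40.PhiShift

set_option autoImplicit false

/-!
Record setters of `g(n) = (n/φ(n) - 2) √n` among odd non-deficient numbers: the product of the odd
primes up to a prime `q ≥ 17` beats every smaller odd number by at least `√N / q`.
-/

namespace Pool.Agent.Q40.OddRec

open Finset Filter Topology Pool.Agent.Q40.PhiShift

/-- `n` is a positive integer with `σ(n) ≥ 2 n` -/
def NonDef (n : ℕ) : Prop := 0 < n ∧ 2 * n ≤ ∑ d ∈ n.divisors, d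

/-- `H(n) = n / φ(n)` -/
noncomputable def Hr (n : ℕ) : ℝ := (n : ℝ) / (Nat.totient n : ℝ)

/-- `g(n) = (H(n) - 2) √n` -/
noncomputable def g (n : ℕ) : ℝ := (Hr n - 2) * Real.sqrt n

/-- odd non-deficient record setters of `g` -/
def B1 : Set ℕ := {n | Odd n ∧ NonDef n ∧ ∀ k : ℕ, k < n → Odd k → NonDef k → g k < g n}

/-- odd primes up to `z` -/
def OP (z : ℕ) : Finset ℕ := (Ioc 2 z).filter Nat.Prime

/-- product of the odd primes up to `z` -/
def NN (z : ℕ) : ℕ := ∏ p ∈ OP z, p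

lemma mem_OP {z p : ℕ} : p ∈ OP z ↔ 2 < p ∧ p ≤ z ∧ p.Prime := by
  unfold OP
  rw [mem_filter, mem_Ioc, and_assoc]

lemma prod_pos' (S : Finset ℕ) (hS : ∀ p ∈ S, p.Prime) : 0 < ∏ p ∈ S, p :=
  Finset.prod_pos fun p hp => (hS p hp).pos

lemma not_dvd_prod (S : Finset ℕ) (hS : ∀ p ∈ S, p.Prime) (q : ℕ) (hq : q.Prime) (hqS : q ∉ S) :
    ¬ q ∣ ∏ p ∈ S, p := by
  intro h
  obtain ⟨r, hr, hqr⟩ := (Prime.dvd_finsetProd_iff hq.prime _).1 h
  have := (Nat.prime_dvd_prime_iff_eq hq (hS r hr)).1 hqr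
  subst this
  exact hqS hr

lemma primeFactors_prod (S : Finset ℕ) (hS : ∀ p ∈ S, p.Prime) : (∏ p ∈ S, p).primeFactors = S := by
  ext p
  rw [Nat.mem_primeFactors]
  constructor
  · rintro ⟨hp, hd, _⟩
    by_contra hcon
    exact not_dvd_prod S hS p hp hcon hd
  · intro hp
    exact ⟨hS p hp, dvd_prod_of_mem _ hp, (prod_pos' S hS).ne'⟩

/-- `p/(p-1)` written as an inverse -/
noncomputable def f (p : ℕ) : ℝ := (1 - (p:ℝ)⁻¹)⁻¹

lemma Hr_eq (n : ℕ) (hn : n ≠ 0) : Hr n = ∏ p ∈ n.primeFactors, f p := by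
  have h := rho_eq n hn
  have e : Hr n = (rho n)⁻¹ := by unfold Hr rho; rw [inv_div]
  rw [e, h]
  unfold f
  rw [Finset.prod_inv_distrib]

lemma f_anti {p z : ℕ} (hp : 2 ≤ p) (h : p ≤ z) : f z ≤ f p := by
  have h1 : (2:ℝ) ≤ p := by exact_mod_cast hp
  have h2 : (p:ℝ) ≤ z := by exact_mod_cast h
  unfold f
  have h3 : (z:ℝ)⁻¹ ≤ (p:ℝ)⁻¹ := inv_anti₀ (by linarith) h2
  have h4 : (p:ℝ)⁻¹ ≤ 2⁻¹ := inv_anti₀ (by norm_num) h1
  apply inv_anti₀
  · have : (2:ℝ)⁻¹ < 1 := by norm_num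
    linarith
  · linarith

lemma one_le_f {p : ℕ} (hp : 2 ≤ p) : 1 ≤ f p := by
  have h1 : (2:ℝ) ≤ p := by exact_mod_cast hp
  unfold f
  have h4 : (p:ℝ)⁻¹ ≤ 2⁻¹ := inv_anti₀ (by norm_num) h1
  have h5 : 0 < (p:ℝ)⁻¹ := by positivity
  rw [one_le_inv₀ (by have : (2:ℝ)⁻¹ < 1 := by norm_num
                      linarith)]
  linarith

lemma exch (S : Finset ℕ) (z : ℕ) (hz : 2 ≤ z) (hS : ∀ p ∈ S, p.Prime ∧ 2 < p)
    (hc : S.card ≤ (OP z).card) : ∏ p ∈ S, f p ≤ ∏ p ∈ OP z, f p := by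
  classical
  have hcz : 1 ≤ f z := one_le_f hz
  have hc2 : (S \ OP z).card ≤ (OP z \ S).card := by
    have h1 := Finset.card_sdiff_add_card_inter S (OP z)
    have h2 := Finset.card_sdiff_add_card_inter (OP z) S
    rw [inter_comm] at h2
    omega
  have e1 : ∏ p ∈ S, f p = (∏ p ∈ S \ OP z, f p) * ∏ p ∈ S ∩ OP z, f p := by
    rw [← Finset.prod_union (Finset.disjoint_sdiff_inter S (OP z)), Finset.sdiff_union_inter]
  have e2 : ∏ p ∈ OP z, f p = (∏ p ∈ OP z \ S, f p) * ∏ p ∈ S ∩ OP z, f p := by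
    rw [inter_comm S, ← Finset.prod_union (Finset.disjoint_sdiff_inter (OP z) S), Finset.sdiff_union_inter]
  rw [e1, e2]
  apply mul_le_mul_of_nonneg_right
  · calc ∏ p ∈ S \ OP z, f p ≤ ∏ p ∈ S \ OP z, f z := by
          apply Finset.prod_le_prod
          · intro p hp
            have := one_le_f (hS p (Finset.mem_sdiff.1 hp).1).1.two_le
            linarith
          · intro p hp
            rw [Finset.mem_sdiff] at hp
            have h3 : ¬ (p ≤ z) := fun h => hp.2 (mem_OP.2 ⟨(hS p hp.1).2, h, (hS p hp.1).1⟩)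
            exact f_anti hz (by omega)
      _ = f z ^ (S \ OP z).card := by rw [prod_const]
      _ ≤ f z ^ (OP z \ S).card := pow_le_pow_right₀ hcz hc2
      _ = ∏ p ∈ OP z \ S, f z := by rw [prod_const]
      _ ≤ ∏ p ∈ OP z \ S, f p := by
          apply Finset.prod_le_prod
          · intro p _; linarith
          · intro p hp
            rw [Finset.mem_sdiff, mem_OP] at hp
            exact f_anti (by omega) hp.1.2.1
  · apply Finset.prod_nonneg
    intro p hp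
    have := one_le_f (hS p (mem_inter.1 hp).1).1.two_le
    linarith

lemma exch2 (S : Finset ℕ) (z : ℕ) (hS : ∀ p ∈ S, p.Prime ∧ 2 < p)
    (hc : (OP z).card ≤ S.card) : ∏ p ∈ OP z, p ≤ ∏ p ∈ S, p := by
  classical
  rcases Nat.eq_zero_or_pos z with hz | hz
  · subst hz
    have : OP 0 = ∅ := rfl
    rw [this, prod_empty]
    exact prod_pos' S (fun p hp => (hS p hp).1)
  have hc2 : (OP z \ S).card ≤ (S \ OP z).card := by
    have h1 := Finset.card_sdiff_add_card_inter S (OP z)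
    have h2 := Finset.card_sdiff_add_card_inter (OP z) S
    rw [inter_comm] at h2
    omega
  have e1 : ∏ p ∈ S, p = (∏ p ∈ S \ OP z, p) * ∏ p ∈ S ∩ OP z, p := by
    rw [← Finset.prod_union (Finset.disjoint_sdiff_inter S (OP z)), Finset.sdiff_union_inter]
  have e2 : ∏ p ∈ OP z, p = (∏ p ∈ OP z \ S, p) * ∏ p ∈ S ∩ OP z, p := by
    rw [inter_comm S, ← Finset.prod_union (Finset.disjoint_sdiff_inter (OP z) S), Finset.sdiff_union_inter]
  rw [e1, e2]
  apply Nat.mul_le_mul_right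
  calc ∏ p ∈ OP z \ S, p ≤ ∏ p ∈ OP z \ S, z := by
        apply Finset.prod_le_prod'
        intro p hp
        rw [Finset.mem_sdiff, mem_OP] at hp
        exact hp.1.2.1
    _ = z ^ (OP z \ S).card := by rw [prod_const]
    _ ≤ z ^ (S \ OP z).card := Nat.pow_le_pow_right hz hc2
    _ = ∏ p ∈ S \ OP z, z := by rw [prod_const]
    _ ≤ ∏ p ∈ S \ OP z, p := by
        apply Finset.prod_le_prod'
        intro p hp
        rw [Finset.mem_sdiff] at hp
        have h3 : ¬ (p ≤ z) := fun h => hp.2 (mem_OP.2 ⟨(hS p hp.1).2, h, (hS p hp.1).1⟩)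
        omega

lemma OP_prime (z : ℕ) : ∀ p ∈ OP z, p.Prime := fun _ hp => (mem_OP.1 hp).2.2

lemma NN_pos (z : ℕ) : 0 < NN z := prod_pos' _ (OP_prime z)

lemma OP_insert (q : ℕ) (hq : q.Prime) (hq2 : 2 < q) : OP q = insert q (OP (q - 1)) := by
  ext p
  rw [mem_insert, mem_OP, mem_OP]
  constructor
  · rintro ⟨h1, h2, h3⟩
    by_cases h : p = q
    · exact Or.inl h
    · exact Or.inr ⟨h1, by omega, h3⟩
  · rintro (rfl | ⟨h1, h2, h3⟩)
    · exact ⟨hq2, le_rfl, hq⟩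
    · exact ⟨h1, by omega, h3⟩

lemma notMem_OP (q : ℕ) (hq2 : 2 < q) : q ∉ OP (q - 1) := by
  rw [mem_OP]; omega

lemma OP13 : OP 13 = {3, 5, 7, 11, 13} := by decide +kernel

lemma OP_mono {y z : ℕ} (h : y ≤ z) : OP y ⊆ OP z := by
  intro p hp
  rw [mem_OP] at hp ⊢
  exact ⟨hp.1, hp.2.1.trans h, hp.2.2⟩

lemma two_le_prod (z : ℕ) (hz : 13 ≤ z) : 2 ≤ ∏ p ∈ OP z, f p := by
  have h1 : ∏ p ∈ OP 13, f p ≤ ∏ p ∈ OP z, f p := by
    rw [← Finset.prod_sdiff (OP_mono hz)]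
    have h2 : 1 ≤ ∏ p ∈ OP z \ OP 13, f p := by
      have : ∏ p ∈ OP z \ OP 13, (1:ℝ) ≤ ∏ p ∈ OP z \ OP 13, f p := by
        apply Finset.prod_le_prod
        · intros; norm_num
        · intro p hp
          exact one_le_f (OP_prime z p (Finset.mem_sdiff.1 hp).1).two_le
      rwa [prod_const_one] at this
    have h3 : 0 ≤ ∏ p ∈ OP 13, f p := by
      apply Finset.prod_nonneg
      intro p hp
      have := one_le_f (OP_prime 13 p hp).two_le
      linarith
    nlinarith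
  refine le_trans ?_ h1
  rw [OP13]
  unfold f
  norm_num

lemma NonDef_NN (z : ℕ) (hz : 13 ≤ z) : NonDef (NN z) := by
  refine ⟨NN_pos z, ?_⟩
  have h1 : Nat.Abundant 15015 := by
    rw [Nat.abundant_iff_sum_divisors]
    decide +kernel
  have h2 : (15015 : ℕ) ∣ NN z := by
    have e : NN 13 = 15015 := by
      unfold NN
      rw [OP13]
      rfl
    rw [← e]
    unfold NN
    exact Finset.prod_dvd_prod_of_subset _ _ _ (OP_mono hz)
  have h3 := Nat.Abundant.of_dvd h1 h2 (NN_pos z).ne'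
  rw [Nat.abundant_iff_sum_divisors] at h3
  exact h3.le

lemma odd_NN (z : ℕ) : Odd (NN z) := by
  rw [← Nat.not_even_iff_odd, even_iff_two_dvd]
  exact not_dvd_prod _ (OP_prime z) 2 Nat.prime_two (by rw [mem_OP]; omega)

/-- the gap below the product of the odd primes up to `q` -/
lemma gap (q : ℕ) (hq : q.Prime) (hq17 : 17 ≤ q) (k : ℕ) (hk : k < NN q) (hko : Odd k) :
    g k + Real.sqrt (NN q) / q ≤ g (NN q) := by
  have hk0 : k ≠ 0 := by
    rintro rfl
    exact (by decide : ¬ Odd 0) hko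
  have hSp : ∀ p ∈ k.primeFactors, p.Prime ∧ 2 < p := by
    intro p hp
    have hpp := Nat.prime_of_mem_primeFactors hp
    refine ⟨hpp, ?_⟩
    have h2 : p ≠ 2 := by
      rintro rfl
      exact (Nat.not_even_iff_odd.2 hko) (even_iff_two_dvd.2 (Nat.dvd_of_mem_primeFactors hp))
    have := hpp.two_le
    omega
  have hcard : k.primeFactors.card < (OP q).card := by
    by_contra hcon
    push Not at hcon
    have h1 := exch2 k.primeFactors q hSp hcon
    have h2 : ∏ p ∈ k.primeFactors, p ≤ k :=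
      Nat.le_of_dvd (Nat.pos_of_ne_zero hk0) (Nat.prod_primeFactors_dvd k)
    have : NN q ≤ k := h1.trans h2
    omega
  have hOP := OP_insert q hq (by omega)
  have hnot := notMem_OP q (by omega)
  have hcard2 : k.primeFactors.card ≤ (OP (q - 1)).card := by
    rw [hOP, card_insert_of_notMem hnot] at hcard
    omega
  have h1 : Hr k ≤ ∏ p ∈ OP (q - 1), f p := by
    rw [Hr_eq k hk0]
    exact exch _ _ (by omega) hSp hcard2
  have h2 : Hr (NN q) = f q * ∏ p ∈ OP (q - 1), f p := by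
    rw [Hr_eq _ (NN_pos q).ne']
    unfold NN
    rw [primeFactors_prod _ (OP_prime q), hOP, prod_insert hnot]
  have h3 := two_le_prod (q - 1) (by omega)
  set D := ∏ p ∈ OP (q - 1), f p with hD
  have hsk : Real.sqrt k ≤ Real.sqrt (NN q) := Real.sqrt_le_sqrt (by exact_mod_cast hk.le)
  have hs0 : 0 ≤ Real.sqrt (k:ℝ) := Real.sqrt_nonneg _
  have hsN0 : 0 ≤ Real.sqrt (NN q : ℝ) := Real.sqrt_nonneg _
  have hq0 : (0:ℝ) < q := by exact_mod_cast hq.pos
  have hfq : 1 + 1 / (q:ℝ) ≤ f q := by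
    have hq1 : (1:ℝ) < q := by exact_mod_cast hq.one_lt
    unfold f
    have h8 : 0 < 1 - (q:ℝ)⁻¹ := by
      have : (q:ℝ)⁻¹ < 1 := inv_lt_one_of_one_lt₀ hq1
      linarith
    rw [← one_div (1 - (q:ℝ)⁻¹), le_div_iff₀ h8]
    have h9 : (1 + 1 / (q:ℝ)) * (1 - (q:ℝ)⁻¹) = 1 - (1 / (q:ℝ)) ^ 2 := by
      rw [one_div]; ring
    rw [h9]
    have : 0 ≤ (1 / (q:ℝ)) ^ 2 := by positivity
    linarith
  unfold g
  rw [h2]
  have h4 : (Hr k - 2) * Real.sqrt k ≤ (D - 2) * Real.sqrt (NN q) := by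
    rcases le_or_gt (Hr k) 2 with h | h
    · have h5 : (Hr k - 2) * Real.sqrt k ≤ 0 := mul_nonpos_of_nonpos_of_nonneg (by linarith) hs0
      have h6 : 0 ≤ (D - 2) * Real.sqrt (NN q) := mul_nonneg (by linarith) hsN0
      linarith
    · calc (Hr k - 2) * Real.sqrt k ≤ (Hr k - 2) * Real.sqrt (NN q) :=
            mul_le_mul_of_nonneg_left hsk (by linarith)
        _ ≤ (D - 2) * Real.sqrt (NN q) := mul_le_mul_of_nonneg_right (by linarith) hsN0
  have h5 : (D - 2) * Real.sqrt (NN q) + Real.sqrt (NN q) / q ≤ (f q * D - 2) * Real.sqrt (NN q) := by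
    have h6 : D + 1 / (q:ℝ) ≤ f q * D := by
      have : 0 ≤ 1 / (q:ℝ) := by positivity
      nlinarith
    have h7 : Real.sqrt (NN q) / q = (1 / (q:ℝ)) * Real.sqrt (NN q) := by ring
    rw [h7, ← add_mul]
    apply mul_le_mul_of_nonneg_right _ hsN0
    linarith
  linarith

lemma le_NN (q : ℕ) (hq : q.Prime) (hq2 : 2 < q) : q ≤ NN q :=
  Nat.le_of_dvd (NN_pos q) (dvd_prod_of_mem _ (mem_OP.2 ⟨hq2, le_rfl, hq⟩))

lemma NN_mem_B1 (q : ℕ) (hq : q.Prime) (hq17 : 17 ≤ q) : NN q ∈ B1 := by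
  refine ⟨odd_NN q, NonDef_NN q (by omega), ?_⟩
  intro k hk hko _
  have h1 := gap q hq hq17 k hk hko
  have h2 : 0 < Real.sqrt (NN q) / q := by
    have h3 : (0:ℝ) < NN q := by exact_mod_cast NN_pos q
    have h4 : (0:ℝ) < q := by exact_mod_cast hq.pos
    positivity
  linarith

lemma B1_infinite : B1.Infinite := by
  rw [Set.infinite_iff_exists_gt]
  intro a
  obtain ⟨q, hq, hqp⟩ := Nat.exists_infinite_primes (a + 17)
  exact ⟨NN q, NN_mem_B1 q hqp (by omega), by have := le_NN q hqp (by omega); omega⟩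

/-- the lower bound `√N / q` for the gap is unbounded -/
lemma exists_big (M : ℝ) (K : ℕ) : ∃ q : ℕ, q.Prime ∧ 17 ≤ q ∧ K < q ∧ M < Real.sqrt (NN q) / q := by
  obtain ⟨n, hn⟩ := exists_nat_gt (4 * M ^ 2 + K + 17)
  have hn17 : 17 < n := by
    have : (17:ℝ) < n := by
      have := sq_nonneg M
      have : (0:ℝ) ≤ K := by positivity
      linarith
    exact_mod_cast this
  have hnK : K < n := by
    have : (K:ℝ) < n := by
      have := sq_nonneg M
      linarith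
    exact_mod_cast this
  obtain ⟨p1, hp1, h1, h1'⟩ := Nat.exists_prime_lt_and_le_two_mul n (by omega)
  obtain ⟨p2, hp2, h2, h2'⟩ := Nat.exists_prime_lt_and_le_two_mul (2 * n) (by omega)
  obtain ⟨q, hq, h3, h3'⟩ := Nat.exists_prime_lt_and_le_two_mul (4 * n) (by omega)
  refine ⟨q, hq, by omega, by omega, ?_⟩
  have hsub : ({p1, p2, q} : Finset ℕ) ⊆ OP q := by
    intro p hp
    simp only [mem_insert, mem_singleton] at hp
    rw [mem_OP]
    rcases hp with rfl | rfl | rfl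
    · exact ⟨by omega, by omega, hp1⟩
    · exact ⟨by omega, by omega, hp2⟩
    · exact ⟨by omega, by omega, hq⟩
  have hle : p1 * (p2 * q) ≤ NN q := by
    have h := Nat.le_of_dvd (NN_pos q) (Finset.prod_dvd_prod_of_subset _ _ (fun p => p) hsub)
    rw [prod_insert, prod_insert, prod_singleton] at h
    · exact h
    · rw [mem_singleton]; omega
    · rw [mem_insert, mem_singleton]; omega
  have hq0 : (0:ℝ) < q := by exact_mod_cast hq.pos
  rcases lt_or_ge M 0 with hM | hM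
  · have : 0 ≤ Real.sqrt (NN q) / q := by positivity
    linarith
  rw [lt_div_iff₀ hq0]
  apply Real.lt_sqrt_of_sq_lt
  have e1 : (M * q) ^ 2 = M ^ 2 * q ^ 2 := by ring
  rw [e1]
  have h4 : (p1:ℝ) * (p2 * q) ≤ (NN q : ℝ) := by exact_mod_cast hle
  refine lt_of_lt_of_le ?_ h4
  have hM4 : 4 * M ^ 2 < n := by
    have : (0:ℝ) ≤ K := by positivity
    linarith
  have r1 : (n:ℝ) < p1 := by exact_mod_cast h1
  have r2 : 2 * (n:ℝ) < p2 := by exact_mod_cast h2
  have r3 : (q:ℝ) ≤ 8 * n := by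
    have : q ≤ 8 * n := by omega
    exact_mod_cast this
  have hn0 : (0:ℝ) < n := by
    have : 0 < n := by omega
    exact_mod_cast this
  have s1 : M ^ 2 * q < p1 * p2 := by
    calc M ^ 2 * q ≤ M ^ 2 * (8 * n) := mul_le_mul_of_nonneg_left r3 (sq_nonneg M)
      _ = (4 * M ^ 2) * (2 * n) := by ring
      _ < n * (2 * n) := by
          apply mul_lt_mul_of_pos_right hM4
          linarith
      _ ≤ p1 * p2 := by
          apply mul_le_mul r1.le r2.le <;> linarith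
  calc M ^ 2 * (q:ℝ) ^ 2 = (M ^ 2 * q) * q := by ring
    _ < ((p1:ℝ) * p2) * q := mul_lt_mul_of_pos_right s1 hq0
    _ = (p1:ℝ) * (p2 * q) := by ring

/-- `σ(n)/n` -/
noncomputable def h (n : ℕ) : ℝ := ((∑ d ∈ n.divisors, d : ℕ) : ℝ) / n

lemma h_prod_ge (S : Finset ℕ) (hS : ∀ p ∈ S, p.Prime) :
    ∑ p ∈ S, (1:ℝ) / p ≤ h (∏ p ∈ S, p) := by
  classical
  set n := ∏ p ∈ S, p with hn
  have hn0 : 0 < n := prod_pos' S hS
  have hnr : (0:ℝ) < n := by exact_mod_cast hn0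
  have hdv : ∀ p ∈ S, p ∣ n := fun p hp => dvd_prod_of_mem _ hp
  have hinj : Set.InjOn (fun p => n / p) (S : Set ℕ) := by
    intro a ha b hb hab
    have ha' := hdv a ha
    have hb' := hdv b hb
    simp only at hab
    have e1 : n / a * a = n := Nat.div_mul_cancel ha'
    have e2 : n / b * b = n := Nat.div_mul_cancel hb'
    rw [hab] at e1
    have h0 : 0 < n / b := Nat.div_pos (Nat.le_of_dvd hn0 hb') (hS b hb).pos
    exact Nat.eq_of_mul_eq_mul_left h0 (e1.trans e2.symm)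
  have h1 : ∑ p ∈ S, n / p ≤ ∑ d ∈ n.divisors, d := by
    rw [← Finset.sum_image (f := fun d => d) hinj]
    apply Finset.sum_le_sum_of_subset
    intro d hd
    rw [mem_image] at hd
    obtain ⟨p, hp, rfl⟩ := hd
    exact Nat.mem_divisors.2 ⟨Nat.div_dvd_of_dvd (hdv p hp), hn0.ne'⟩
  unfold h
  rw [le_div_iff₀ hnr, sum_mul]
  have h2 : ((∑ p ∈ S, n / p : ℕ) : ℝ) ≤ ((∑ d ∈ n.divisors, d : ℕ) : ℝ) := by exact_mod_cast h1
  refine le_trans (le_of_eq ?_) h2
  push_cast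
  apply sum_congr rfl
  intro p hp
  have hp0 : (p:ℝ) ≠ 0 := by exact_mod_cast (hS p hp).ne_zero
  rw [Nat.cast_div (hdv p hp) hp0]
  ring

lemma exists_h_big (C : ℝ) (K : ℕ) : ∃ q : ℕ, q.Prime ∧ 17 ≤ q ∧ K < q ∧ C < h (NN q) := by
  classical
  have h1 : Tendsto (fun n => ∑ i ∈ range n, Set.indicator {p : ℕ | p.Prime} (fun n : ℕ => (1:ℝ) / n) i)
      atTop atTop := by
    rw [← not_summable_iff_tendsto_nat_atTop_of_nonneg]
    · exact not_summable_one_div_on_primes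
    · intro n
      apply Set.indicator_nonneg
      intros; positivity
  obtain ⟨k, hk⟩ := (h1.eventually (eventually_gt_atTop (C +
    ∑ i ∈ range 3, Set.indicator {p : ℕ | p.Prime} (fun n : ℕ => (1:ℝ) / n) i))).exists
  have hnn : ∀ i : ℕ, 0 ≤ Set.indicator {p : ℕ | p.Prime} (fun n : ℕ => (1:ℝ) / n) i := by
    intro n
    apply Set.indicator_nonneg
    intros; positivity
  obtain ⟨q, hqk, hq⟩ := Nat.exists_infinite_primes (k + K + 17)
  refine ⟨q, hq, by omega, by omega, ?_⟩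
  have hsub : range k ⊆ range 3 ∪ Ioc 2 q := by
    intro i hi
    rw [mem_range] at hi
    rw [mem_union, mem_range, mem_Ioc]
    omega
  have h2 : ∑ i ∈ range k, Set.indicator {p : ℕ | p.Prime} (fun n : ℕ => (1:ℝ) / n) i ≤
      ∑ i ∈ range 3, Set.indicator {p : ℕ | p.Prime} (fun n : ℕ => (1:ℝ) / n) i +
      ∑ i ∈ Ioc 2 q, Set.indicator {p : ℕ | p.Prime} (fun n : ℕ => (1:ℝ) / n) i := by
    refine (sum_le_sum_of_subset_of_nonneg hsub (fun i _ _ => hnn i)).trans ?_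
    rw [← sum_union_inter]
    have : 0 ≤ ∑ i ∈ range 3 ∩ Ioc 2 q, Set.indicator {p : ℕ | p.Prime} (fun n : ℕ => (1:ℝ) / n) i :=
      sum_nonneg fun i _ => hnn i
    linarith
  have h3 : ∑ i ∈ Ioc 2 q, Set.indicator {p : ℕ | p.Prime} (fun n : ℕ => (1:ℝ) / n) i =
      ∑ p ∈ OP q, (1:ℝ) / p := by
    unfold OP
    rw [sum_filter]
    apply sum_congr rfl
    intro i _
    rw [Set.indicator_apply]
    rfl
  have h4 := h_prod_ge (OP q) (OP_prime q)
  have h5 : C < ∑ p ∈ OP q, (1:ℝ) / p := by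
    rw [← h3]; linarith
  unfold NN
  linarith

end Pool.Agent.Q40.OddRec
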